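import Mathlib
import Pool.Agent.Helper92.PU.Leaves
import Pool.Agent.Helper48.PU.Pat

/-!
# PU, leaf X, part 1: the state of `L` in the situation of leaf X

`XH` is the situation: `K = p * q * r`, uniform `p`-marginals of `L`, uniform `q`-marginals of `A`.
`x_dd`: two points of `L` of equal colours agree in a bottom digit.
-/

set_option autoImplicit false

namespace Pool.Agent.Helper35.PU

open Pool.Agent.Helper92.SS
open Pool.Agent.Helper92.PU
open Pool.Agent.Helper48.PU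

/-- The situation of leaf X. -/
structure XH (p n q m : ℕ) {r : ℕ} (ca cl : ℤ × ℤ → ZMod r) (A L : Finset (ℤ × ℤ)) : Prop where
  mn : Mn p (n + 1) q (m + 1) ca cl A L
  K : A.card = p * q * r
  eL : Ep p L
  eA : Eq' q A
  nL : ¬ Eq' q L
  nA : ¬ Ep p A

theorem XH.sy {p n q m r : ℕ} {ca cl : ℤ × ℤ → ZMod r} {A L : Finset (ℤ × ℤ)}
    (h : XH p n q m ca cl A L) : XH q m p n (cs cl) (cs ca) (sw L) (sw A) where
  mn := h.mn.symm.sw
  K := by rw [card_sw, ← h.mn.cp.card, h.K, mul_comm p q]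
  eL := Ep_sw.2 h.eA
  eA := Eq_sw.2 h.eL
  nL := fun e => h.nA (Eq_sw.1 e)
  nA := fun e => h.nL (Ep_sw.1 e)

/-- Transitivity of congruences. -/
theorem dt {M a b c : ℤ} (h1 : M ∣ a - b) (h2 : M ∣ b - c) : M ∣ a - c := by
  have := dvd_add h1 h2
  rwa [sub_add_sub_cancel] at this

theorem ds {M a b : ℤ} (h : M ∣ a - b) : M ∣ b - a := (dvd_sub_comm).1 h

/-- A bad point: a sibling of the same colour is missing. -/
def Bad (p n q m : ℕ) {r : ℕ} (ca : ℤ × ℤ → ZMod r) (A : Finset (ℤ × ℤ)) (a : ℤ × ℤ) (s : ℤ) :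
    Prop :=
  ∀ b ∈ A, ca b = ca a → (p : ℤ) ^ (n + 1) ∣ b.1 - (a.1 + s * (p : ℤ) ^ n) →
    ¬ (q : ℤ) ^ (m + 1) ∣ b.2 - a.2

theorem exists_bad {p n q m r : ℕ} {ca cl : ℤ × ℤ → ZMod r} {A L : Finset (ℤ × ℤ)}
    (h : Mn p n q m ca cl A L) : ∃ a ∈ A, Bad p n q m ca A a 1 := by
  have h1 := h.pA1
  unfold CPer at h1
  push Not at h1
  obtain ⟨a, ha, h2⟩ := h1
  refine ⟨a, ha, fun b hb hc hd => ?_⟩
  rw [one_mul] at hd
  exact h2 b hb hc hd

section cells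

variable {p n q m r : ℕ} {ca cl : ℤ × ℤ → ZMod r} {A L : Finset (ℤ × ℤ)}

theorem cc_kl_pos {c : ZMod r} {x y : ℤ} :
    0 < cc (kl ca A c) (p ^ n) (q ^ m) x y ↔
      ∃ a ∈ A, ca a = c ∧ (p : ℤ) ^ n ∣ a.1 - x ∧ (q : ℤ) ^ m ∣ a.2 - y := by
  rw [cc_pos]
  push_cast
  constructor
  · rintro ⟨a, ha, h1, h2⟩
    exact ⟨a, (mem_kl.1 ha).1, (mem_kl.1 ha).2, h1, h2⟩
  · rintro ⟨a, ha, hc, h1, h2⟩
    exact ⟨a, mem_kl.2 ⟨ha, hc⟩, h1, h2⟩

theorem cc_A_pos {x y : ℤ} :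
    0 < cc A (p ^ n) (q ^ m) x y ↔
      ∃ a ∈ A, (p : ℤ) ^ n ∣ a.1 - x ∧ (q : ℤ) ^ m ∣ a.2 - y := by
  rw [cc_pos]
  push_cast
  rfl

/-- The shift of a bad point is not trivial. -/
theorem bad_s {a : ℤ × ℤ} {s : ℤ} (ha : a ∈ A) (hb : Bad p n q m ca A a s) : ¬ (p : ℤ) ∣ s := by
  rintro ⟨t, rfl⟩
  refine hb a ha rfl ⟨-t, ?_⟩ (by simp)
  rw [pow_succ]
  ring

end cells

/-- The star. -/
theorem star {p q r : ℕ} {cl : ℤ × ℤ → ZMod r} {L : Finset (ℤ × ℤ)} (r3 : 3 ≤ r)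
    (fL : ∀ y : ZMod r, (kl cl L y).Nonempty)
    {l1 l2 : ℤ × ℤ} (h1 : l1 ∈ L) (h2 : l2 ∈ L) (hd : ¬ (p : ℤ) ∣ l1.1 - l2.1)
    (he : ¬ (q : ℤ) ∣ l1.2 - l2.2)
    (hS : ∀ l ∈ L, ∀ l' ∈ L, ¬ (p : ℤ) ∣ l.1 - l'.1 → ¬ (q : ℤ) ∣ l.2 - l'.2 → cl l = cl l') :
    ∃ (d0 e0 : ℤ) (c0 : ZMod r), (∀ l ∈ L, cl l ≠ c0 → (p : ℤ) ∣ l.1 - d0 ∧ (q : ℤ) ∣ l.2 - e0) ∧
      ∀ l ∈ L, (p : ℤ) ∣ l.1 - d0 ∨ (q : ℤ) ∣ l.2 - e0 := by
  have : NeZero r := ⟨by omega⟩
  -- digits as elements of `ZMod`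
  have hp : ∀ a b : ℤ, (p : ℤ) ∣ a - b ↔ ((a : ZMod p) = (b : ZMod p)) := by
    intro a b
    rw [eq_comm, ZMod.intCast_eq_intCast_iff_dvd_sub]
  have hq : ∀ a b : ℤ, (q : ℤ) ∣ a - b ↔ ((a : ZMod q) = (b : ZMod q)) := by
    intro a b
    rw [eq_comm, ZMod.intCast_eq_intCast_iff_dvd_sub]
  simp only [hp, hq] at hd he hS ⊢
  have c12 := hS l1 h1 l2 h2 hd he
  -- any other colour is in one of two cells
  have cell : ∀ l ∈ L, cl l ≠ cl l1 → (((l.1 : ZMod p) = l1.1 ∧ (l.2 : ZMod q) = l2.2) ∨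
      ((l.1 : ZMod p) = l2.1 ∧ (l.2 : ZMod q) = l1.2)) := by
    intro l hl hc
    have a1 : (l.1 : ZMod p) = l1.1 ∨ (l.2 : ZMod q) = l1.2 := by
      by_contra hcon
      push Not at hcon
      exact hc (hS l hl l1 h1 hcon.1 hcon.2)
    have a2 : (l.1 : ZMod p) = l2.1 ∨ (l.2 : ZMod q) = l2.2 := by
      by_contra hcon
      push Not at hcon
      exact hc ((hS l hl l2 h2 hcon.1 hcon.2).trans c12.symm)
    rcases a1 with a1 | a1 <;> rcases a2 with a2 | a2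
    · exact absurd (a1.symm.trans a2) hd
    · exact Or.inl ⟨a1, a2⟩
    · exact Or.inr ⟨a2, a1⟩
    · exact absurd (a1.symm.trans a2) he
  -- two points of other colours which are different are in the same cell
  have same : ∀ l ∈ L, ∀ l' ∈ L, cl l ≠ cl l1 → cl l' ≠ cl l1 → cl l ≠ cl l' →
      (l.1 : ZMod p) = l'.1 ∧ (l.2 : ZMod q) = l'.2 := by
    intro l hl l' hl' hc hc' hcc
    rcases cell l hl hc with ⟨u1, u2⟩ | ⟨u1, u2⟩ <;> rcases cell l' hl' hc' with ⟨v1, v2⟩ | ⟨v1, v2⟩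
    · exact ⟨u1.trans v1.symm, u2.trans v2.symm⟩
    · exfalso
      refine hcc (hS l hl l' hl' ?_ ?_)
      · rw [u1, v1]
        exact hd
      · rw [u2, v2]
        exact fun e => he e.symm
    · exfalso
      refine hcc (hS l hl l' hl' ?_ ?_)
      · rw [u1, v1]
        exact fun e => hd e.symm
      · rw [u2, v2]
        exact he
    · exact ⟨u1.trans v1.symm, u2.trans v2.symm⟩
  -- three colours
  have hcard : Fintype.card (ZMod r) = r := ZMod.card r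
  obtain ⟨c, hc1⟩ : ∃ c : ZMod r, c ≠ cl l1 := by
    have : Nontrivial (ZMod r) := Fintype.one_lt_card_iff_nontrivial.1 (by omega)
    exact exists_ne _
  obtain ⟨l3, hl3⟩ := fL c
  obtain ⟨hl3, hc3⟩ := mem_kl.1 hl3
  have key : ∀ l ∈ L, cl l ≠ cl l1 → (l.1 : ZMod p) = l3.1 ∧ (l.2 : ZMod q) = l3.2 := by
    intro l hl hlc
    by_cases e : cl l = cl l3
    · obtain ⟨c', hc'⟩ : ∃ c' : ZMod r, c' ∉ ({cl l1, cl l3} : Finset (ZMod r)) := by
        by_contra hcon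
        push Not at hcon
        have h5 : (Finset.univ : Finset (ZMod r)) ⊆ {cl l1, cl l3} := fun x _ => hcon x
        have h6 := Finset.card_le_card h5
        rw [Finset.card_univ, hcard] at h6
        have h7 : ({cl l1, cl l3} : Finset (ZMod r)).card ≤ 2 := Finset.card_le_two
        omega
      simp only [Finset.mem_insert, Finset.mem_singleton, not_or] at hc'
      obtain ⟨l5, hl5⟩ := fL c'
      obtain ⟨hl5, hc5⟩ := mem_kl.1 hl5
      have i1 := same l hl l5 hl5 hlc (by rw [hc5]; exact hc'.1)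
        (by rw [hc5, e]; exact fun h => hc'.2 h.symm)
      have i2 := same l3 hl3 l5 hl5 (by rw [hc3]; exact hc1) (by rw [hc5]; exact hc'.1)
        (by rw [hc5]; exact fun h => hc'.2 h.symm)
      exact ⟨i1.1.trans i2.1.symm, i1.2.trans i2.2.symm⟩
    · exact same l hl l3 hl3 hlc (by rw [hc3]; exact hc1) e
  refine ⟨l3.1, l3.2, cl l1, key, fun l hl => ?_⟩
  by_cases e : cl l = cl l1
  · by_contra hcon
    push Not at hcon
    exact hc1 (hc3.symm.trans ((hS l hl l3 hl3 hcon.1 hcon.2).symm.trans e))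
  · exact Or.inl (key l hl e).1

section state

variable {p n q m r : ℕ} {ca cl : ℤ × ℤ → ZMod r} {A L : Finset (ℤ × ℤ)}

/-- Two different points of `A` of one colour in one `q`-line do not exist. -/
theorem XH.nq (h : XH p n q m ca cl A L) {a b : ℤ × ℤ} (ha : a ∈ A) (hb : b ∈ A)
    (hc : ca a = ca b) (h1 : (p : ℤ) ^ (n + 1 + 1) ∣ a.1 - b.1)
    (h2 : (q : ℤ) ^ (m + 1) ∣ a.2 - b.2) : (q : ℤ) ^ (m + 1 + 1) ∣ a.2 - b.2 := by
  by_contra h3
  exact h.nL fun x => pat_q h.mn.hp h.mn.hq h.mn.pq h.mn.cp ha hb hc h1 h2 h3 x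

/-- State BOTH is impossible. -/
theorem XH.both_no (h : XH p n q m ca cl A L) {l l' : ℤ × ℤ} (hl : l ∈ L) (hl' : l' ∈ L)
    (hc : cl l = cl l') (h1 : ¬ (p : ℤ) ∣ l.1 - l'.1) (h2 : ¬ (q : ℤ) ∣ l.2 - l'.2)
    {k k' : ℤ × ℤ} (hk : k ∈ L) (hk' : k' ∈ L) (hkc : cl k ≠ cl k')
    (h1k : ¬ (p : ℤ) ∣ k.1 - k'.1) (h2k : ¬ (q : ℤ) ∣ k.2 - k'.2) : False := by
  obtain ⟨a, ha, hbad⟩ := exists_bad h.mn
  have e := st_B h.mn.hp h.mn.hq h.mn.hr.pos h.mn.pq h.mn.cp hl hl' hc h1 h2 hk hk' hkc h1k h2k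
    (ca a) a.1 a.2 1 1
  have e1 : 0 < cc (kl ca A (ca a)) (p ^ (n + 1 + 1)) (q ^ (m + 1 + 1)) a.1 a.2 :=
    cc_kl_pos.2 ⟨a, ha, rfl, by simp, by simp⟩
  have e2 : ¬ 0 < cc (kl ca A (ca a)) (p ^ (n + 1 + 1)) (q ^ (m + 1 + 1))
      (a.1 + 1 * (p : ℤ) ^ (n + 1)) a.2 := by
    intro h3
    obtain ⟨b, hb, hbc, hb1, hb2⟩ := cc_kl_pos.1 h3
    exact hbad b hb hbc hb1 hb2
  have e3 : ¬ 0 < cc (kl ca A (ca a)) (p ^ (n + 1 + 1)) (q ^ (m + 1 + 1))
      a.1 (a.2 + 1 * (q : ℤ) ^ (m + 1)) := by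
    intro h3
    obtain ⟨b, hb, hbc, hb1, hb2⟩ := cc_kl_pos.1 h3
    have h4 : (q : ℤ) ^ (m + 1) ∣ b.2 - a.2 := by
      have : b.2 - a.2 = (b.2 - (a.2 + 1 * (q : ℤ) ^ (m + 1))) + 1 * (q : ℤ) ^ (m + 1) := by ring
      rw [this]
      exact dvd_add ((pow_dvd_pow _ (by omega)).trans hb2) (dvd_mul_left _ _)
    have h5 := h.nq hb ha hbc hb1 h4
    have h6 : (q : ℤ) ^ (m + 1 + 1) ∣ (q : ℤ) ^ (m + 1) := by
      have : (q : ℤ) ^ (m + 1) = (b.2 - a.2) - (b.2 - (a.2 + 1 * (q : ℤ) ^ (m + 1))) := by ring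
      rw [this]
      exact dvd_sub h5 hb2
    have h7 := (Nat.pow_dvd_pow_iff_le_right h.mn.hq.one_lt).1 (by exact_mod_cast h6)
    omega
  omega

/-- State S is impossible. -/
theorem XH.s_no (h : XH p n q m ca cl A L)
    (hS : ∀ l ∈ L, ∀ l' ∈ L, ¬ (p : ℤ) ∣ l.1 - l'.1 → ¬ (q : ℤ) ∣ l.2 - l'.2 → cl l = cl l') :
    False := by
  have : NeZero r := ⟨h.mn.hr.ne_zero⟩
  have hp := h.mn.hp
  have hq := h.mn.hq
  obtain ⟨l1, hl1, l2, hl2, hd, he⟩ := zz_pair h.mn.oL1 h.mn.oL2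
  obtain ⟨d0, e0, c0, hcen, hstar⟩ := star h.mn.r3 h.mn.fL hl1 hl2 hd he hS
  have hpd : ¬ (p : ℤ) ∣ d0 + 1 - d0 := by
    rw [add_sub_cancel_left]
    intro hh
    exact hp.one_lt.ne' (by exact_mod_cast Int.eq_one_of_dvd_one (by positivity) hh)
  have hqe : ¬ (q : ℤ) ∣ e0 + 1 - e0 := by
    rw [add_sub_cancel_left]
    intro hh
    exact hq.one_lt.ne' (by exact_mod_cast Int.eq_one_of_dvd_one (by positivity) hh)
  have hK : L.card = p * q * r := by rw [← h.mn.cp.card, h.K]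
  -- no pattern `{p, r}`
  have npr : ∀ a ∈ A, ∀ b ∈ A, ca a ≠ ca b → (p : ℤ) ^ (n + 1) ∣ a.1 - b.1 →
      ¬ (p : ℤ) ^ (n + 1 + 1) ∣ a.1 - b.1 → (q : ℤ) ^ (m + 1 + 1) ∣ a.2 - b.2 → False := by
    intro a ha b hb hc g1 g2 g3
    obtain ⟨c, hcc⟩ : ∃ c : ZMod r, c ≠ c0 := by
      have : Nontrivial (ZMod r) := Fintype.one_lt_card_iff_nontrivial.1 (by
        rw [ZMod.card]
        have := h.mn.r3
        omega)
      exact exists_ne _
    have e := pat_pr hp hq h.mn.pq h.mn.cp ha hb hc g1 g2 g3 c0 c d0 (d0 + 1)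
    have e1 : c1 (kl cl L c) p (d0 + 1) = 0 := by
      unfold c1
      rw [Finset.card_eq_zero, Finset.filter_eq_empty_iff]
      intro l hl hh
      have hl' := mem_kl.1 hl
      refine hpd ?_
      exact dt (ds hh) (hcen l hl'.1 (by rw [hl'.2]; exact hcc)).1
    have e2 : c1 (kl cl L c0) p (d0 + 1) = c1 L p (d0 + 1) := by
      unfold c1 kl
      rw [Finset.filter_filter]
      congr 1
      refine Finset.filter_congr fun l hl => ⟨fun hh => hh.2, fun hh => ⟨?_, hh⟩⟩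
      by_contra hcon
      exact hpd (dt (ds hh) (hcen l hl hcon).1)
    have e3 : c1 L p (d0 + 1) = c1 L p d0 := by
      have i1 := h.eL (d0 + 1)
      have i2 := h.eL d0
      exact Nat.eq_of_mul_eq_mul_left hp.pos (i1.trans i2.symm)
    have e4 : c1 (kl cl L c0) p d0 + c1 (kl cl L c) p d0 ≤ c1 L p d0 := by
      rw [← c1_kl cl L p d0]
      calc c1 (kl cl L c0) p d0 + c1 (kl cl L c) p d0
          = ∑ x ∈ ({c0, c} : Finset (ZMod r)), c1 (kl cl L x) p d0 := by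
            rw [Finset.sum_pair (Ne.symm hcc)]
        _ ≤ ∑ x : ZMod r, c1 (kl cl L x) p d0 :=
            Finset.sum_le_sum_of_subset (Finset.subset_univ _)
    have e5 : 0 < c1 (kl cl L c) p d0 := by
      obtain ⟨l, hl⟩ := h.mn.fL c
      refine Finset.card_pos.2 ⟨l, Finset.mem_filter.2 ⟨hl, ?_⟩⟩
      have hl' := mem_kl.1 hl
      exact (hcen l hl'.1 (by rw [hl'.2]; exact hcc)).1
    omega
  -- no pattern `{q, r}`
  have nqr : ∀ a ∈ A, ∀ b ∈ A, ca a ≠ ca b → (p : ℤ) ^ (n + 1 + 1) ∣ a.1 - b.1 →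
      (q : ℤ) ^ (m + 1) ∣ a.2 - b.2 → ¬ (q : ℤ) ^ (m + 1 + 1) ∣ a.2 - b.2 → False := by
    intro a ha b hb hc g1 g2 g3
    have hcard : Fintype.card (ZMod r) = r := ZMod.card r
    obtain ⟨c, hcc⟩ : ∃ c : ZMod r, c ≠ c0 := by
      have : Nontrivial (ZMod r) := Fintype.one_lt_card_iff_nontrivial.1 (by
        rw [ZMod.card]
        have := h.mn.r3
        omega)
      exact exists_ne _
    obtain ⟨c', hc'⟩ : ∃ c' : ZMod r, c' ∉ ({c0, c} : Finset (ZMod r)) := by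
      by_contra hcon
      push Not at hcon
      have h5 : (Finset.univ : Finset (ZMod r)) ⊆ {c0, c} := fun x _ => hcon x
      have h6 := Finset.card_le_card h5
      rw [Finset.card_univ, hcard] at h6
      have h7 : ({c0, c} : Finset (ZMod r)).card ≤ 2 := Finset.card_le_two
      have := h.mn.r3
      omega
    simp only [Finset.mem_insert, Finset.mem_singleton, not_or] at hc'
    have z : ∀ c : ZMod r, c ≠ c0 → c2 (kl cl L c) q (e0 + 1) = 0 := by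
      intro c hcc
      unfold c2
      rw [Finset.card_eq_zero, Finset.filter_eq_empty_iff]
      intro l hl hh
      have hl' := mem_kl.1 hl
      exact hqe (dt (ds hh) (hcen l hl'.1 (by rw [hl'.2]; exact hcc)).2)
    have z' : ∀ c : ZMod r, c ≠ c0 → c2 (kl cl L c) q e0 = (kl cl L c).card := by
      intro c hcc
      unfold c2
      congr 1
      rw [Finset.filter_eq_self]
      intro l hl
      have hl' := mem_kl.1 hl
      exact (hcen l hl'.1 (by rw [hl'.2]; exact hcc)).2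
    have e := pat_qr hp hq h.mn.pq h.mn.cp ha hb hc g1 g2 g3 c0 c e0 (e0 + 1)
    have e' := pat_qr hp hq h.mn.pq h.mn.cp ha hb hc g1 g2 g3 c0 c' e0 (e0 + 1)
    rw [z c hcc, z' c hcc] at e
    rw [z c' hc'.1, z' c' hc'.1] at e'
    have b1 : 0 < (kl cl L c).card := Finset.card_pos.2 (h.mn.fL c)
    have b2 : (kl cl L c0).card + (kl cl L c).card + (kl cl L c').card ≤ L.card := by
      rw [← card_kl cl L]
      calc (kl cl L c0).card + (kl cl L c).card + (kl cl L c').card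
          = ∑ x ∈ ({c0, c, c'} : Finset (ZMod r)), (kl cl L x).card := by
            rw [Finset.sum_insert, Finset.sum_pair, add_assoc]
            · exact fun hh => hc'.2 hh.symm
            · simp only [Finset.mem_insert, Finset.mem_singleton, not_or]
              exact ⟨fun hh => hcc hh.symm, fun hh => hc'.1 hh.symm⟩
        _ ≤ ∑ x : ZMod r, (kl cl L x).card :=
            Finset.sum_le_sum_of_subset (Finset.subset_univ _)
    have b3 : c2 (kl cl L c0) q e0 + c2 (kl cl L c0) q (e0 + 1) ≤ (kl cl L c0).card := by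
      unfold c2
      rw [← Finset.card_union_of_disjoint]
      · exact Finset.card_le_card (Finset.union_subset (Finset.filter_subset _ _)
          (Finset.filter_subset _ _))
      · rw [Finset.disjoint_left]
        intro l hl hl'
        exact hqe (dt (ds (Finset.mem_filter.1 hl').2) (Finset.mem_filter.1 hl).2)
    have b4 : L.card ≤ c1 L p d0 + c2 (kl cl L c0) q e0 := by
      have i : L ⊆ (L.filter fun l => (p : ℤ) ∣ l.1 - d0) ∪
          ((kl cl L c0).filter fun l => (q : ℤ) ∣ l.2 - e0) := by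
        intro l hl
        by_cases hh : (p : ℤ) ∣ l.1 - d0
        · exact Finset.mem_union_left _ (Finset.mem_filter.2 ⟨hl, hh⟩)
        · refine Finset.mem_union_right _ (Finset.mem_filter.2 ⟨mem_kl.2 ⟨hl, ?_⟩, ?_⟩)
          · by_contra hcon
            exact hh (hcen l hl hcon).1
          · exact (hstar l hl).resolve_left hh
      exact (Finset.card_le_card i).trans (Finset.card_union_le _ _)
    have b5 : 2 * c1 L p d0 ≤ L.card := by
      rw [← h.eL d0]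
      exact Nat.mul_le_mul_right _ hp.two_le
    omega
  obtain ⟨a, ha, hbad⟩ := exists_bad h.mn
  have hcc : cl l1 = cl l2 := hS l1 hl1 l2 hl2 hd he
  have e := st_S hp hq h.mn.pq h.mn.cp hl1 hl2 hcc hd he a.1 a.2 1 1
  have e1 : 0 < cc A (p ^ (n + 1 + 1)) (q ^ (m + 1 + 1)) a.1 a.2 :=
    cc_A_pos.2 ⟨a, ha, by simp, by simp⟩
  rcases Nat.eq_zero_or_pos (cc A (p ^ (n + 1 + 1)) (q ^ (m + 1 + 1))
    (a.1 + 1 * (p : ℤ) ^ (n + 1)) a.2) with e2 | e2
  swap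
  · obtain ⟨b, hb, hb1, hb2⟩ := cc_A_pos.1 e2
    have hne : ca b ≠ ca a := fun hcb => hbad b hb hcb hb1 hb2
    refine npr b hb a ha hne ?_ ?_ hb2
    · have : b.1 - a.1 = (b.1 - (a.1 + 1 * (p : ℤ) ^ (n + 1))) + 1 * (p : ℤ) ^ (n + 1) := by ring
      rw [this]
      exact dvd_add ((pow_dvd_pow _ (by omega)).trans hb1) (dvd_mul_left _ _)
    · intro h5
      have h6 : (p : ℤ) ^ (n + 1 + 1) ∣ (p : ℤ) ^ (n + 1) := by
        have : (p : ℤ) ^ (n + 1) = (b.1 - a.1) - (b.1 - (a.1 + 1 * (p : ℤ) ^ (n + 1))) := by ring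
        rw [this]
        exact dvd_sub h5 hb1
      have h7 := (Nat.pow_dvd_pow_iff_le_right hp.one_lt).1 (by exact_mod_cast h6)
      omega
  · rcases Nat.eq_zero_or_pos (cc A (p ^ (n + 1 + 1)) (q ^ (m + 1 + 1))
      a.1 (a.2 + 1 * (q : ℤ) ^ (m + 1))) with e3 | e3
    · omega
    · obtain ⟨b, hb, hb1, hb2⟩ := cc_A_pos.1 e3
      have h4 : (q : ℤ) ^ (m + 1) ∣ b.2 - a.2 := by
        have : b.2 - a.2 = (b.2 - (a.2 + 1 * (q : ℤ) ^ (m + 1))) + 1 * (q : ℤ) ^ (m + 1) := by ring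
        rw [this]
        exact dvd_add ((pow_dvd_pow _ (by omega)).trans hb2) (dvd_mul_left _ _)
      have h5 : ¬ (q : ℤ) ^ (m + 1 + 1) ∣ b.2 - a.2 := by
        intro h5
        have h6 : (q : ℤ) ^ (m + 1 + 1) ∣ (q : ℤ) ^ (m + 1) := by
          have : (q : ℤ) ^ (m + 1) = (b.2 - a.2) - (b.2 - (a.2 + 1 * (q : ℤ) ^ (m + 1))) := by ring
          rw [this]
          exact dvd_sub h5 hb2
        have h7 := (Nat.pow_dvd_pow_iff_le_right hq.one_lt).1 (by exact_mod_cast h6)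
        omega
      by_cases hcb : ca b = ca a
      · exact h5 (h.nq hb ha hcb hb1 h4)
      · exact nqr b hb a ha hcb hb1 h4 h5

/-- Two points of `L` of equal colours agree in a bottom digit. -/
theorem XH.dd (h : XH p n q m ca cl A L) : ∀ l ∈ L, ∀ l' ∈ L, cl l = cl l' →
    (p : ℤ) ∣ l.1 - l'.1 ∨ (q : ℤ) ∣ l.2 - l'.2 := by
  intro l hl l' hl' hc
  by_contra hcon
  push Not at hcon
  refine h.s_no fun k hk k' hk' h1 h2 => ?_
  by_contra hkc
  exact h.both_no hl hl' hc hcon.1 hcon.2 hk hk' hkc h1 h2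

/-- There is a pair of `L` of different colours with different bottom digits. -/
theorem XH.dp (h : XH p n q m ca cl A L) : ∃ l ∈ L, ∃ l' ∈ L, ¬ (p : ℤ) ∣ l.1 - l'.1 ∧
    ¬ (q : ℤ) ∣ l.2 - l'.2 ∧ cl l ≠ cl l' := by
  obtain ⟨l1, hl1, l2, hl2, hd, he⟩ := zz_pair h.mn.oL1 h.mn.oL2
  refine ⟨l1, hl1, l2, hl2, hd, he, fun hc => ?_⟩
  rcases h.dd l1 hl1 l2 hl2 hc with h1 | h1
  · exact hd h1
  · exact he h1

end state

end Pool.Agent.Helper35.PU
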