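import Mathlib
import Pool.Agent.Helper35.PU.XStar

/-!
# PU, leaf X, part 2: the block of a bad point

`XH.rel`: the relation of the counts in the block of a bad point.
`XH.occ`: every colour occurs in the block.  `XH.rr`: two colours at one position.
-/

set_option autoImplicit false

namespace Pool.Agent.Helper35.PU

open Pool.Agent.Helper92.SS
open Pool.Agent.Helper92.PU
open Pool.Agent.Helper48.PU

section bad

variable {p n q m r : ℕ} {ca cl : ℤ × ℤ → ZMod r} {A L : Finset (ℤ × ℤ)}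

/-- The relation of the counts in the block of a bad point. -/
theorem XH.rel (h : XH p n q m ca cl A L) {a : ℤ × ℤ} (ha : a ∈ A) {s : ℤ}
    (hb : Bad p (n + 1) q (m + 1) ca A a s) (c : ZMod r) :
    1 + cc (kl ca A (ca a)) (p ^ (n + 1 + 1)) (q ^ (m + 1 + 1)) (a.1 + s * (p : ℤ) ^ (n + 1))
        (a.2 + 1 * (q : ℤ) ^ (m + 1)) +
      cc (kl ca A c) (p ^ (n + 1 + 1)) (q ^ (m + 1 + 1)) (a.1 + s * (p : ℤ) ^ (n + 1)) a.2 +
      cc (kl ca A c) (p ^ (n + 1 + 1)) (q ^ (m + 1 + 1)) a.1 (a.2 + 1 * (q : ℤ) ^ (m + 1)) =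
    cc (kl ca A c) (p ^ (n + 1 + 1)) (q ^ (m + 1 + 1)) a.1 a.2 +
      cc (kl ca A c) (p ^ (n + 1 + 1)) (q ^ (m + 1 + 1)) (a.1 + s * (p : ℤ) ^ (n + 1))
        (a.2 + 1 * (q : ℤ) ^ (m + 1)) := by
  obtain ⟨l, hl, l', hl', h1, h2, hc⟩ := h.dp
  have e := st_D h.mn.hp h.mn.hq h.mn.pq h.mn.cp hl hl' hc h1 h2 (ca a) c a.1 a.2 s 1
  have e1 : 0 < cc (kl ca A (ca a)) (p ^ (n + 1 + 1)) (q ^ (m + 1 + 1)) a.1 a.2 :=
    cc_kl_pos.2 ⟨a, ha, rfl, by simp, by simp⟩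
  have e1' := cc_le_one h.mn.hp.pos h.mn.hq.pos h.mn.cp (ca a) a.1 a.2
  have e2 : ¬ 0 < cc (kl ca A (ca a)) (p ^ (n + 1 + 1)) (q ^ (m + 1 + 1))
      (a.1 + s * (p : ℤ) ^ (n + 1)) a.2 := by
    intro h3
    obtain ⟨b, hb', hbc, hb1, hb2⟩ := cc_kl_pos.1 h3
    exact hb b hb' hbc hb1 hb2
  have e3 : ¬ 0 < cc (kl ca A (ca a)) (p ^ (n + 1 + 1)) (q ^ (m + 1 + 1))
      a.1 (a.2 + 1 * (q : ℤ) ^ (m + 1)) := by
    intro h3
    obtain ⟨b, hb, hbc, hb1, hb2⟩ := cc_kl_pos.1 h3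
    have h4 : (q : ℤ) ^ (m + 1) ∣ b.2 - a.2 := by
      have : b.2 - a.2 = (b.2 - (a.2 + 1 * (q : ℤ) ^ (m + 1))) + 1 * (q : ℤ) ^ (m + 1) := by ring
      rw [this]
      exact dvd_add ((pow_dvd_pow _ (by omega)).trans hb2) (dvd_mul_left _ _)
    have h5 := h.nq hb ha hbc hb1 h4
    have h6 : (q : ℤ) ^ (m + 1 + 1) ∣ (q : ℤ) ^ (m + 1) := by
      have : (q : ℤ) ^ (m + 1) = (b.2 - a.2) - (b.2 - (a.2 + 1 * (q : ℤ) ^ (m + 1))) := by ring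
      rw [this]
      exact dvd_sub h5 hb2
    have h7 := (Nat.pow_dvd_pow_iff_le_right h.mn.hq.one_lt).1 (by exact_mod_cast h6)
    omega
  omega

/-- Every colour occurs in the block of a bad point. -/
theorem XH.occ (h : XH p n q m ca cl A L) {a : ℤ × ℤ} (ha : a ∈ A) {s : ℤ}
    (hb : Bad p (n + 1) q (m + 1) ca A a s) (c : ZMod r) :
    ∃ b ∈ A, ca b = c ∧ (p : ℤ) ∣ b.1 - a.1 ∧ (q : ℤ) ∣ b.2 - a.2 := by
  have e := h.rel ha hb c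
  have d1 : (p : ℤ) ∣ (p : ℤ) ^ (n + 1) := dvd_pow_self _ (by omega)
  have d2 : (p : ℤ) ∣ (p : ℤ) ^ (n + 1 + 1) := dvd_pow_self _ (by omega)
  have d3 : (q : ℤ) ∣ (q : ℤ) ^ (m + 1) := dvd_pow_self _ (by omega)
  have d4 : (q : ℤ) ∣ (q : ℤ) ^ (m + 1 + 1) := dvd_pow_self _ (by omega)
  rcases Nat.eq_zero_or_pos (cc (kl ca A c) (p ^ (n + 1 + 1)) (q ^ (m + 1 + 1)) a.1 a.2) with e1 | e1
  · have e2 : 0 < cc (kl ca A c) (p ^ (n + 1 + 1)) (q ^ (m + 1 + 1))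
        (a.1 + s * (p : ℤ) ^ (n + 1)) (a.2 + 1 * (q : ℤ) ^ (m + 1)) := by omega
    obtain ⟨b, hb, hbc, hb1, hb2⟩ := cc_kl_pos.1 e2
    refine ⟨b, hb, hbc, ?_, ?_⟩
    · have : b.1 - a.1 = (b.1 - (a.1 + s * (p : ℤ) ^ (n + 1))) + s * (p : ℤ) ^ (n + 1) := by ring
      rw [this]
      exact dvd_add (d2.trans hb1) (d1.mul_left _)
    · have : b.2 - a.2 = (b.2 - (a.2 + 1 * (q : ℤ) ^ (m + 1))) + 1 * (q : ℤ) ^ (m + 1) := by ring
      rw [this]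
      exact dvd_add (d4.trans hb2) (d3.mul_left _)
  · obtain ⟨b, hb, hbc, hb1, hb2⟩ := cc_kl_pos.1 e1
    exact ⟨b, hb, hbc, d2.trans hb1, d4.trans hb2⟩

/-- Two different colours at one position. -/
theorem XH.rr (h : XH p n q m ca cl A L) : ∃ a ∈ A, ∃ b ∈ A, ca a ≠ ca b ∧
    (p : ℤ) ^ (n + 1 + 1) ∣ a.1 - b.1 ∧ (q : ℤ) ^ (m + 1 + 1) ∣ a.2 - b.2 := by
  have : NeZero r := ⟨h.mn.hr.ne_zero⟩
  obtain ⟨a, ha, hb⟩ := exists_bad h.mn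
  by_contra hcon
  push Not at hcon
  have hcard : Fintype.card (ZMod r) = r := ZMod.card r
  obtain ⟨c, hcc⟩ : ∃ c : ZMod r, c ≠ ca a := by
    have : Nontrivial (ZMod r) := Fintype.one_lt_card_iff_nontrivial.1 (by
      rw [ZMod.card]
      have := h.mn.r3
      omega)
    exact exists_ne _
  obtain ⟨c', hc'⟩ : ∃ c' : ZMod r, c' ∉ ({ca a, c} : Finset (ZMod r)) := by
    by_contra hcon
    push Not at hcon
    have h5 : (Finset.univ : Finset (ZMod r)) ⊆ {ca a, c} := fun x _ => hcon x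
    have h6 := Finset.card_le_card h5
    rw [Finset.card_univ, hcard] at h6
    have h7 : ({ca a, c} : Finset (ZMod r)).card ≤ 2 := Finset.card_le_two
    have := h.mn.r3
    omega
  simp only [Finset.mem_insert, Finset.mem_singleton, not_or] at hc'
  have key : ∀ c : ZMod r, c ≠ ca a → ∃ b ∈ A, ca b = c ∧
      (p : ℤ) ^ (n + 1 + 1) ∣ b.1 - (a.1 + 1 * (p : ℤ) ^ (n + 1)) ∧
      (q : ℤ) ^ (m + 1 + 1) ∣ b.2 - (a.2 + 1 * (q : ℤ) ^ (m + 1)) := by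
    intro c hc
    have e := h.rel ha hb c
    have e1 : ¬ 0 < cc (kl ca A c) (p ^ (n + 1 + 1)) (q ^ (m + 1 + 1)) a.1 a.2 := by
      intro h3
      obtain ⟨b, hb, hbc, hb1, hb2⟩ := cc_kl_pos.1 h3
      exact hcon b hb a ha (by rw [hbc]; exact hc) hb1 hb2
    exact cc_kl_pos.1 (by omega)
  obtain ⟨b, hb, hbc, hb1, hb2⟩ := key c hcc
  obtain ⟨b', hb', hbc', hb1', hb2'⟩ := key c' hc'.1
  exact hcon b hb b' hb' (by rw [hbc, hbc']; exact fun e => hc'.2 e.symm)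
    (by have := dvd_sub hb1 hb1'; rwa [sub_sub_sub_cancel_right] at this)
    (by have := dvd_sub hb2 hb2'; rwa [sub_sub_sub_cancel_right] at this)

/-- All colours of `L` have `p * q` elements. -/
theorem XH.cardL (h : XH p n q m ca cl A L) (c : ZMod r) : (kl cl L c).card = p * q := by
  obtain ⟨a, ha, b, hb, hc, h1, h2⟩ := h.rr
  have e := pat_r' h.mn.hp.pos h.mn.hq.pos h.mn.hr.pos h.mn.cp ha hb hc h1 h2 c
  rw [← h.mn.cp.card, h.K, mul_comm (p * q) r] at e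
  exact Nat.eq_of_mul_eq_mul_left h.mn.hr.pos e

theorem mem_sw' {A : Finset (ℤ × ℤ)} {a : ℤ × ℤ} (ha : a ∈ sw A) : (a.2, a.1) ∈ A :=
  Pool.Agent.Helper92.PU.mem_sw.1 ha

/-- All colours of `A` have `p * q` elements. -/
theorem XH.cardA (h : XH p n q m ca cl A L) (c : ZMod r) : (kl ca A c).card = p * q := by
  have e := h.sy.cardL c
  have e2 : kl (cs ca) (sw A) c = sw (kl ca A c) := kl_sw ca A c
  rw [e2, card_sw, mul_comm] at e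
  exact e

/-- A point of `L` with all colours in its cell. -/
theorem XH.cellL (h : XH p n q m ca cl A L) : ∃ l0 ∈ L, ∀ c : ZMod r, ∃ l ∈ L, cl l = c ∧
    (p : ℤ) ∣ l.1 - l0.1 ∧ (q : ℤ) ∣ l.2 - l0.2 := by
  obtain ⟨a, ha, hb⟩ := exists_bad h.sy.mn
  refine ⟨(a.2, a.1), mem_sw' ha, fun c => ?_⟩
  obtain ⟨b, hb, hbc, hb1, hb2⟩ := h.sy.occ ha hb c
  exact ⟨(b.2, b.1), mem_sw' hb, hbc, hb2, hb1⟩

/-- Two points of `A` of equal colours agree in a bottom digit. -/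
theorem XH.ddA (h : XH p n q m ca cl A L) : ∀ a ∈ A, ∀ b ∈ A, ca a = ca b →
    (p : ℤ) ∣ a.1 - b.1 ∨ (q : ℤ) ∣ a.2 - b.2 := by
  intro a ha b hb hc
  have e := h.sy.dd (a.2, a.1) (Pool.Agent.Helper92.PU.mem_sw.2 ha) (b.2, b.1)
    (Pool.Agent.Helper92.PU.mem_sw.2 hb) hc
  exact e.symm

end bad

end Pool.Agent.Helper35.PU
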