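import Mathlib
import Pool.Agent.Helper35.PU.XBad

/-!
# PU, leaf X, part 3: the final count

`X5` and `PD` are the statements of the two sub-lemmas.
-/

set_option autoImplicit false

namespace Pool.Agent.Helper35.PU

open Pool.Agent.Helper92.SS
open Pool.Agent.Helper92.PU
open Pool.Agent.Helper48.PU

/-- Sub-lemma: patterns `{r}` and `{p, q, r}` together. -/
def X5 : Prop := ∀ {p n q m r : ℕ}, p.Prime → q.Prime → r.Prime → 3 ≤ r → p ≠ q →
    ∀ {ca cl : ℤ × ℤ → ZMod r} {A L : Finset (ℤ × ℤ)}, CP p (n + 1) q (m + 1) ca cl A L →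
    A.card = p * q * r → Ep p L →
    (∀ l ∈ L, ∀ l' ∈ L, cl l = cl l' → (p : ℤ) ∣ l.1 - l'.1 ∨ (q : ℤ) ∣ l.2 - l'.2) →
    (∀ c : ZMod r, (kl cl L c).card = p * q) → ¬ one2 q L → ∀ {l0 : ℤ × ℤ},
    (∀ c : ZMod r, ∃ l ∈ L, cl l = c ∧ (p : ℤ) ∣ l.1 - l0.1 ∧ (q : ℤ) ∣ l.2 - l0.2) →
    ∀ {a b : ℤ × ℤ}, a ∈ A → b ∈ A → ca a ≠ ca b → (p : ℤ) ^ n ∣ a.1 - b.1 →
    ¬ (p : ℤ) ^ (n + 1) ∣ a.1 - b.1 → (q : ℤ) ^ m ∣ a.2 - b.2 →
    ¬ (q : ℤ) ^ (m + 1) ∣ a.2 - b.2 → False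

/-- Sub-lemma: periodic sets. -/
def PD : Prop := ∀ {p n q m : ℕ}, p.Prime → 0 < q → ∀ {F : Finset (ℤ × ℤ)},
    (∀ a ∈ F, ∀ b ∈ F, (p : ℤ) ^ (n + 1) ∣ a.1 - b.1 → (q : ℤ) ^ m ∣ a.2 - b.2 → a = b) →
    (∀ a ∈ F, ∃ b ∈ F, (p : ℤ) ^ (n + 1) ∣ b.1 - (a.1 + (p : ℤ) ^ n) ∧
      (q : ℤ) ^ m ∣ b.2 - a.2) → p ∣ F.card

section fin

variable {p n q m r : ℕ} {ca cl : ℤ × ℤ → ZMod r} {A L : Finset (ℤ × ℤ)}

/-- All colours occur at the position of a bad point, and they are bad. -/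
theorem XH.all (h : XH p n q m ca cl A L) (h5 : X5) {a : ℤ × ℤ} (ha : a ∈ A) {s : ℤ}
    (hb : Bad p (n + 1) q (m + 1) ca A a s) (c : ZMod r) :
    ∃ b ∈ A, ca b = c ∧ (p : ℤ) ^ (n + 1 + 1) ∣ b.1 - a.1 ∧ (q : ℤ) ^ (m + 1 + 1) ∣ b.2 - a.2 ∧
      Bad p (n + 1) q (m + 1) ca A b s := by
  obtain ⟨l0, _, hl0⟩ := h.cellL
  by_cases hc : c = ca a
  · exact ⟨a, ha, hc.symm, by simp, by simp, hb⟩
  have e := h.rel ha hb c
  have hps := bad_s ha hb
  have e1 : ¬ 0 < cc (kl ca A c) (p ^ (n + 1 + 1)) (q ^ (m + 1 + 1))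
        (a.1 + s * (p : ℤ) ^ (n + 1)) (a.2 + 1 * (q : ℤ) ^ (m + 1)) := by
    intro h3
    obtain ⟨b, hb, hbc, hb1, hb2⟩ := cc_kl_pos.1 h3
    refine h5 h.mn.hp h.mn.hq h.mn.hr h.mn.r3 h.mn.pq h.mn.cp h.K h.eL h.dd h.cardL h.mn.oL2 hl0 hb ha
      (by rw [hbc]; exact hc) ?_ ?_ ?_ ?_
    · have : b.1 - a.1 = (b.1 - (a.1 + s * (p : ℤ) ^ (n + 1))) + s * (p : ℤ) ^ (n + 1) := by ring
      rw [this]
      exact dvd_add ((pow_dvd_pow _ (by omega)).trans hb1) (dvd_mul_left _ _)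
    · intro h6
      have h7 : (p : ℤ) ^ (n + 1 + 1) ∣ s * (p : ℤ) ^ (n + 1) := by
        have : s * (p : ℤ) ^ (n + 1) = (b.1 - a.1) - (b.1 - (a.1 + s * (p : ℤ) ^ (n + 1))) := by
          ring
        rw [this]
        exact dvd_sub h6 hb1
      rw [pow_succ', mul_dvd_mul_iff_right (pow_ne_zero _ (by exact_mod_cast h.mn.hp.ne_zero))] at h7
      exact hps h7
    · have : b.2 - a.2 = (b.2 - (a.2 + 1 * (q : ℤ) ^ (m + 1))) + 1 * (q : ℤ) ^ (m + 1) := by ring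
      rw [this]
      exact dvd_add ((pow_dvd_pow _ (by omega)).trans hb2) (dvd_mul_left _ _)
    · intro h6
      have h7 : (q : ℤ) ^ (m + 1 + 1) ∣ (q : ℤ) ^ (m + 1) := by
        have : (q : ℤ) ^ (m + 1) = (b.2 - a.2) - (b.2 - (a.2 + 1 * (q : ℤ) ^ (m + 1))) := by ring
        rw [this]
        exact dvd_sub h6 hb2
      have h8 := (Nat.pow_dvd_pow_iff_le_right h.mn.hq.one_lt).1 (by exact_mod_cast h7)
      omega
  have e2 := cc_le_one h.mn.hp.pos h.mn.hq.pos h.mn.cp c a.1 a.2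
  have e3 : 0 < cc (kl ca A c) (p ^ (n + 1 + 1)) (q ^ (m + 1 + 1)) a.1 a.2 := by omega
  have e4 : ¬ 0 < cc (kl ca A c) (p ^ (n + 1 + 1)) (q ^ (m + 1 + 1))
      (a.1 + s * (p : ℤ) ^ (n + 1)) a.2 := by omega
  obtain ⟨b, hb', hbc, hb1, hb2⟩ := cc_kl_pos.1 e3
  refine ⟨b, hb', hbc, hb1, hb2, fun b' hb'' hcb hd1 hd2 => ?_⟩
  refine e4 (cc_kl_pos.2 ⟨b', hb'', hcb.trans hbc, ?_, dt hd2 hb2⟩)
  have : b'.1 - (a.1 + s * (p : ℤ) ^ (n + 1)) =
      (b'.1 - (b.1 + s * (p : ℤ) ^ (n + 1))) + (b.1 - a.1) := by ring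
  rw [this]
  exact dvd_add hd1 hb1

/-- The situation of leaf X is impossible. -/
theorem XH.no (h : XH p n q m ca cl A L) (h5 : X5) (hP : PD) : False := by
  classical
  have : NeZero r := ⟨h.mn.hr.ne_zero⟩
  obtain ⟨a0, ha0, hb0⟩ := exists_bad h.mn
  -- the bad points
  set B : Finset (ℤ × ℤ) := A.filter fun a => ∃ s : ℤ, Bad p (n + 1) q (m + 1) ca A a s with hB
  have mB : ∀ a, a ∈ B ↔ a ∈ A ∧ ∃ s : ℤ, Bad p (n + 1) q (m + 1) ca A a s := by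
    intro a
    rw [hB, Finset.mem_filter]
  have dp : (p : ℤ) ∣ (p : ℤ) ^ (n + 1 + 1) := dvd_pow_self _ (by omega)
  have dq : (q : ℤ) ∣ (q : ℤ) ^ (m + 1 + 1) := dvd_pow_self _ (by omega)
  -- number of bad points of a colour
  have hcol : ∀ c : ZMod r, p ≤ (kl ca B c).card := by
    intro c
    have h1 : p ∣ ((kl ca A c).filter fun a => ¬ ∃ s : ℤ, Bad p (n + 1) q (m + 1) ca A a s).card := by
      refine hP (n := n + 1) (m := m + 1 + 1) h.mn.hp h.mn.hq.pos ?_ ?_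
      · intro a ha b hb g1 g2
        have ha' := mem_kl.1 (Finset.mem_filter.1 ha).1
        have hb' := mem_kl.1 (Finset.mem_filter.1 hb).1
        exact cp_inj h.mn.hp.pos h.mn.hq.pos h.mn.cp ha'.1 hb'.1 (ha'.2.trans hb'.2.symm) g1 g2
      · intro a ha
        have ha' := mem_kl.1 (Finset.mem_filter.1 ha).1
        have hn := (Finset.mem_filter.1 ha).2
        have g : ∀ s : ℤ, ∃ b ∈ A, ca b = ca a ∧
            (p : ℤ) ^ (n + 1 + 1) ∣ b.1 - (a.1 + s * (p : ℤ) ^ (n + 1)) ∧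
            (q : ℤ) ^ (m + 1 + 1) ∣ b.2 - a.2 := by
          intro s
          by_contra hcon
          push Not at hcon
          exact hn ⟨s, fun b hb hc hd => hcon b hb hc hd⟩
        obtain ⟨b, hb, hc, hb1, hb2⟩ := g 1
        rw [one_mul] at hb1
        refine ⟨b, Finset.mem_filter.2 ⟨mem_kl.2 ⟨hb, hc.trans ha'.2⟩, ?_⟩, hb1, hb2⟩
        rintro ⟨s, hs⟩
        obtain ⟨b', hb', hc', hb1', hb2'⟩ := g (s + 1)
        refine hs b' hb' (hc'.trans hc.symm) ?_ (dt hb2' (ds hb2))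
        have : b'.1 - (b.1 + s * (p : ℤ) ^ (n + 1)) =
            (b'.1 - (a.1 + (s + 1) * (p : ℤ) ^ (n + 1))) - (b.1 - (a.1 + (p : ℤ) ^ (n + 1))) := by
          ring
        rw [this]
        exact dvd_sub hb1' hb1
    have h2 : (kl ca B c).card +
        ((kl ca A c).filter fun a => ¬ ∃ s : ℤ, Bad p (n + 1) q (m + 1) ca A a s).card = p * q := by
      rw [← h.cardA c]
      have e : kl ca B c = (kl ca A c).filter fun a => ∃ s : ℤ, Bad p (n + 1) q (m + 1) ca A a s := by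
        rw [hB]
        unfold kl
        rw [Finset.filter_comm]
      rw [e]
      exact Finset.card_filter_add_card_filter_not _
    have h3 : p ∣ (kl ca B c).card := (Nat.dvd_add_iff_left h1).2 (by rw [h2]; exact dvd_mul_right _ _)
    obtain ⟨b, hb, hc, _, _, hbb⟩ := h.all h5 ha0 hb0 c
    exact Nat.le_of_dvd (Finset.card_pos.2 ⟨b, mem_kl.2 ⟨(mB b).2 ⟨hb, _, hbb⟩, hc⟩⟩) h3
  -- two special points
  obtain ⟨a1, ha1, hq1⟩ : ∃ a1 ∈ A, ¬ (q : ℤ) ∣ a1.2 - a0.2 := by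
    by_contra hcon
    push Not at hcon
    exact h.mn.oA2 fun a ha b hb => dt (hcon a ha) (ds (hcon b hb))
  obtain ⟨a2, ha2, hp2⟩ : ∃ a2 ∈ A, ¬ (p : ℤ) ∣ a2.1 - a0.1 := by
    by_contra hcon
    push Not at hcon
    exact h.mn.oA1 fun a ha b hb => dt (hcon a ha) (ds (hcon b hb))
  obtain ⟨b1, hb1, hc1, hb11, hb12, _⟩ := h.all h5 ha0 hb0 (ca a1)
  obtain ⟨b2, hb2, hc2, hb21, hb22, _⟩ := h.all h5 ha0 hb0 (ca a2)
  have p1 : (p : ℤ) ∣ a1.1 - a0.1 := by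
    rcases h.ddA a1 ha1 b1 hb1 hc1.symm with g | g
    · exact dt g (dp.trans hb11)
    · exact absurd (dt g (dq.trans hb12)) hq1
  have q2 : (q : ℤ) ∣ a2.2 - a0.2 := by
    rcases h.ddA a2 ha2 b2 hb2 hc2.symm with g | g
    · exact absurd (dt g (dp.trans hb21)) hp2
    · exact dt g (dq.trans hb22)
  -- bad points are in the cell of `a0`
  have cell : ∀ a ∈ B, (p : ℤ) ∣ a.1 - a0.1 ∧ (q : ℤ) ∣ a.2 - a0.2 := by
    intro a ha
    obtain ⟨ha, s, hs⟩ := (mB a).1 ha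
    constructor
    · obtain ⟨d, hd, hdc, hd1, hd2, _⟩ := h.all h5 ha hs (ca a1)
      by_contra hcon
      have hcon' : ¬ (p : ℤ) ∣ d.1 - a0.1 := fun e => hcon (dt (ds (dp.trans hd1)) e)
      have g1 : (q : ℤ) ∣ d.2 - a1.2 := by
        rcases h.ddA d hd a1 ha1 hdc with g | g
        · exact absurd (dt g p1) hcon'
        · exact g
      have g2 : (q : ℤ) ∣ d.2 - b1.2 := by
        rcases h.ddA d hd b1 hb1 (hdc.trans hc1.symm) with g | g
        · exact absurd (dt g (dp.trans hb11)) hcon'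
        · exact g
      exact hq1 (dt (ds g1) (dt g2 (dq.trans hb12)))
    · obtain ⟨d, hd, hdc, hd1, hd2, _⟩ := h.all h5 ha hs (ca a2)
      by_contra hcon
      have hcon' : ¬ (q : ℤ) ∣ d.2 - a0.2 := fun e => hcon (dt (ds (dq.trans hd2)) e)
      have g1 : (p : ℤ) ∣ d.1 - a2.1 := by
        rcases h.ddA d hd a2 ha2 hdc with g | g
        · exact g
        · exact absurd (dt g q2) hcon'
      have g2 : (p : ℤ) ∣ d.1 - b2.1 := by
        rcases h.ddA d hd b2 hb2 (hdc.trans hc2.symm) with g | g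
        · exact g
        · exact absurd (dt g (dq.trans hb22)) hcon'
      exact hp2 (dt (ds g1) (dt g2 (dp.trans hb21)))
  -- the count
  have n1 : r * p ≤ B.card := by
    rw [← card_kl ca B]
    calc r * p = ∑ _c : ZMod r, p := by
          rw [Finset.sum_const, Finset.card_univ, ZMod.card, smul_eq_mul]
      _ ≤ ∑ c : ZMod r, (kl ca B c).card := Finset.sum_le_sum fun c _ => hcol c
  have n2 : c2 A q a0.2 = r * p := by
    have e := h.eA a0.2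
    rw [h.K] at e
    refine Nat.eq_of_mul_eq_mul_left h.mn.hq.pos (e.trans ?_)
    ring
  have n3 : B = A.filter fun a => (q : ℤ) ∣ a.2 - a0.2 := by
    refine Finset.eq_of_subset_of_card_le ?_ ?_
    · intro a ha
      exact Finset.mem_filter.2 ⟨((mB a).1 ha).1, (cell a ha).2⟩
    · change c2 A q a0.2 ≤ _
      rw [n2]
      exact n1
  have n4 : a2 ∈ B := by
    rw [n3]
    exact Finset.mem_filter.2 ⟨ha2, q2⟩
  exact hp2 (cell a2 n4).1

end fin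

theorem leafX_of (h5 : X5) (hP : PD) : LeafX := by
  intro p n q m r ca cl A L h hK e1 e2 e3 e4
  exact XH.no { mn := h, K := hK, eL := e1, eA := e2, nL := e3, nA := e4 } h5 hP

end Pool.Agent.Helper35.PU
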