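import Mathlib
import Pool.Agent.Helper35.PU.XF
import Pool.Agent.Helper51.PU.X5
import Pool.Agent.Helper48.PU.PDvd

/-!
# PU, leaf X
-/

set_option autoImplicit false

namespace Pool.Agent.Helper35.PU

open Pool.Agent.Helper92.PU

/-- Leaf X: both exponents are at least two and `K = p * q * r`. -/
theorem leafX : LeafX :=
  leafX_of
    (fun hp hq hr r3 hpq _ _ _ _ h hK eL hD hc h2 _ hl0 _ _ ha hb hab h1 h3 h4 h5 =>
      Pool.Agent.Helper51.PU.x5 hp hq hr r3 hpq h hK eL hD hc h2 hl0 ha hb hab h1 h3 h4 h5)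
    (fun hp hq _ hi hs => Pool.Agent.Helper48.PU.per_dvd hp hq hi hs)

end Pool.Agent.Helper35.PU
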